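import Pool.Agent.N830.EL.Mid
import Pool.Agent.R462.HC.Main
import Pool.Agent.W12.TQ.Iter
import Pool.Agent.W347.TQ.Ode
import Pool.Agent.W52.TQ.Univ
import Pool.Agent.W775.TQ.Dtp
import Pool.Agent.W503.TQ.Est1
import Pool.Agent.W790.TQ.Est2
import Pool.Agent.W52.TQ.Loc
import Pool.Agent.W503.TQ.Uni

/-!
# A loss of energy needs a strong compression of the flow in the direction of its acceleration

Let `u` be a Leray-Hopf solution of the Navier-Stokes equations with viscosity `ν` in an arbitrary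
bounded open set `Ω ⊆ ℝ³`, with regular initial velocity and force. We show: the energy equality
holds on `[0,T]`, or there is a time `τ ∈ (0,T]` such that the energy equality holds on `[0,τ)` and
that before `τ` the flow is strongly compressed in the direction of its time derivative. In each
point only the rate of strain in one direction, that of `∂ₜu`, is involved, and only from one side:
the rate of compression `-e·(∇u)e` in the direction `e = ∂ₜu/|∂ₜu|`.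

Namely it is impossible that for almost every `t` near `τ`

`-∂ₜu·(∂ₜu·∇)u ≤ (θ ν W + K/(τ - t) + w) |∂ₜu|² + g`

almost everywhere in `Ω`, where `0 ≤ θ < 1`, `0 ≤ K < 3/4`, the potential `W` is form bounded with
the bound one, that is `∫ W φ² ≤ ∫ |∇φ|²` for test functions (for instance
`W(x) = 1/(4 |x - y|²)`), `‖w(t)‖_{L^b(Ω)} ≤ B(t)` with `B ∈ L^a` near `τ`, `2/a + 3/b = 2`,
`a < ∞`, and `‖g(t)‖_{L¹(Ω)} ≤ κ ν^{5/2} (τ - t)^{-5/2}`; `κ > 0` depends on `θ` and `K` only. So a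
solution for which this compression is bounded, or in a class `L^a(0,T; L^b(Ω))`, `2/a + 3/b = 2`,
`b > 3/2`, or below `K/(τ - t)`, `K < 3/4`, before its first singular time, satisfies the energy
equality.

The criterion is a theorem of helper327 (`Pool/Agent/N327/AD`), first handed in for the global
regularity problem and moved here, with the energy equality added.
-/

set_option autoImplicit false

open MeasureTheory Set
open scoped InnerProductSpace ENNReal ContDiff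

namespace Pool.Agent.Results.MP_a38b17_an.EnergyLossNeedsCompression

open H772R2.NS.Pub Pool.Agent.W795.TQ
open Pool.Agent.W795.ES (outer)
open Pool.Agent.R462.HC (FormBdd)

/-- The field `v` and the matrix field `G = ∇u` satisfy almost everywhere in `Ω`
`-v·(v·∇)u ≤ (ρ W + K + w) |v|² + g`, for some potential `W` which is form bounded with the bound
one, and functions `w`, `g` with `‖w‖_{L^b(Ω)} ≤ B` and `‖g‖_{L¹(Ω)} ≤ Γ`. -/
def WeaklyCompressed {Ω : Set R3} (b : ℝ≥0∞) (ρ K B Γ : ℝ) (G : L2 Ω Mat) (v : L2 Ω R3) : Prop :=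
  ∃ W w g : R3 → ℝ, FormBdd Ω W ∧
    AEStronglyMeasurable w (volume.restrict Ω) ∧
    eLpNorm w b (volume.restrict Ω) ≤ ENNReal.ofReal B ∧
    AEStronglyMeasurable g (volume.restrict Ω) ∧
    eLpNorm g 1 (volume.restrict Ω) ≤ ENNReal.ofReal Γ ∧
    ∀ᵐ x ∂(volume.restrict Ω), -⟪G.fn x, outer (v.fn x)⟫_ℝ
      ≤ (ρ * W x + K + w x) * ‖v.fn x‖ ^ 2 + g x

/-- Let `0 ≤ θ < 1` and `0 ≤ K < 3/4`. There is a number `κ > 0`, depending on `θ` and `K` only,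
with the following property. Let `u` be a Leray-Hopf solution on `[0,T]` with admissible data in a
bounded open set `Ω`: the force is `⟨f(t), φ⟩ = (F(t), ∇φ)`, `F ∈ H¹(0,T; L²)`, the initial velocity
is in `V` and the initial acceleration in `L²`. Then the energy equality holds for all `t ∈ [0,T]`,
or there are a time `τ ∈ (0,T]` and functions `u' = ∂ₜu`, `G = ∇u`, `G' = ∇∂ₜu` on `(0,τ)` such that
`u` is a strong solution and satisfies the energy equality on `[0,t]` for all `t < τ`, and for all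
exponents with `2/a + 3/b = 2`, `a < ∞`, all `t₁ < τ` and all `B ∈ L^a(t₁,τ)` it is impossible that
for almost every `t ∈ (t₁,τ)` the flow `u(t)` is weakly compressed in the direction of `u'(t)` in the
sense of `WeaklyCompressed`, with `ρ = θ ν`, the constant `K/(τ - t)`, the bound `B(t)` in `L^b` and
the bound `κ ν^{5/2} (τ - t)^{-5/2}` in `L¹`. -/
theorem result (θ K : ℝ) (hθ : 0 ≤ θ) (hθ1 : θ < 1) (hK : 0 ≤ K) (hK1 : K < 3 / 4) :
    ∃ κ : ℝ, 0 < κ ∧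
    ∀ (Ω : Set R3), IsOpen Ω → Bornology.IsBounded Ω → ∀ (ν T : ℝ), 0 < ν → 0 < T →
    ∀ (F F' : ℝ → L2 Ω Mat), IsH1 T F F' →
    ∀ (u : ℝ → L2 Ω R3) (G₀ : ℝ → L2 Ω Mat), IsLerayHopf Ω ν T F u G₀ →
    ∀ z0 : L2 Ω Mat, (u 0, z0) ∈ H1graph Ω →
    (∃ g : L2 Ω R3, ∀ φ, IsTest Ω φ → rhs ν (u 0) z0 (F 0) φ = ∫ x in Ω, ⟪g.fn x, φ x⟫_ℝ) →
    (∀ t ∈ Icc 0 T, ‖u t‖ ^ 2 / 2 + ν * (∫ s in (0 : ℝ)..t, ‖G₀ s‖ ^ 2)
      = ‖u 0‖ ^ 2 / 2 + ∫ s in (0 : ℝ)..t, ⟪F s, G₀ s⟫_ℝ) ∨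
    ∃ τ ∈ Ioc 0 T, ∃ (u' : ℝ → L2 Ω R3) (G G' : ℝ → L2 Ω Mat),
      (∀ t ∈ Ioo 0 τ, IsStrong Ω ν t F u u' G G') ∧
      (∀ t ∈ Ico 0 τ, ‖u t‖ ^ 2 / 2 + ν * (∫ s in (0 : ℝ)..t, ‖G₀ s‖ ^ 2)
        = ‖u 0‖ ^ 2 / 2 + ∫ s in (0 : ℝ)..t, ⟪F s, G₀ s⟫_ℝ) ∧
      ∀ (a b : ℝ≥0∞) (B : ℝ → ℝ) (t₁ : ℝ), 2 / a + 3 / b = 2 → a ≠ ⊤ → t₁ < τ →
        MemLp B a (volume.restrict (Ioo t₁ τ)) →
        ¬ ∀ᵐ t ∂(volume.restrict (Ioo t₁ τ)), WeaklyCompressed b (θ * ν) (K / (τ - t)) (B t)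
          (κ * ν ^ (5 / 2 : ℝ) * (τ - t) ^ (-(5 / 2) : ℝ)) (G t) (u' t) := by
  obtain ⟨κ, hκ, H⟩ := Pool.Agent.N830.EL.mid Pool.Agent.W12.TQ.proof
    Pool.Agent.W347.TQ.proof_ode Pool.Agent.W775.TQ.proof_dtp Pool.Agent.W503.TQ.proof_est1
    Pool.Agent.W790.TQ.proof_est2 Pool.Agent.W52.TQ.proof_loc Pool.Agent.W503.TQ.proof_uni
    Pool.Agent.W52.TQ.proof_univ hθ hθ1 hK hK1
  refine ⟨κ, hκ, ?_⟩
  intro Ω hΩ hb ν T hν hT F F' hF u G₀ L z0 h0 hg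
  obtain ⟨g, hg'⟩ := hg
  rcases H Ω hΩ hb ν T hν hT F F' hF.memLp hF.prim u G₀ L.meas
    (by
      filter_upwards [L.grad] with t ht
      exact mem_pub.mpr ht) L.gradL2
    (fun φ hφ t ht => L.eqn φ ((isTest_iff φ).mpr hφ) t ht) L.energy z0 (mem_pub.mpr h0)
    ⟨g, fun φ hφ => hg' φ ((isTest_iff φ).mpr hφ)⟩ with h1 | ⟨τ, hτ, u', G, G', h1, h1e, h2⟩
  · exact Or.inl h1
  refine Or.inr ⟨τ, hτ, u', G, G', h1, h1e, ?_⟩
  intro a b B t₁ hab ha ht₁ hB hyp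
  have hch : ∀ t : ℝ, ∃ W w g : R3 → ℝ, WeaklyCompressed b (θ * ν) (K / (τ - t)) (B t)
      (κ * ν ^ (5 / 2 : ℝ) * (τ - t) ^ (-(5 / 2) : ℝ)) (G t) (u' t) → FormBdd Ω W ∧
    AEStronglyMeasurable w (volume.restrict Ω) ∧
    eLpNorm w b (volume.restrict Ω) ≤ ENNReal.ofReal (B t) ∧
    AEStronglyMeasurable g (volume.restrict Ω) ∧
    eLpNorm g 1 (volume.restrict Ω)
      ≤ ENNReal.ofReal (κ * ν ^ (5 / 2 : ℝ) * (τ - t) ^ (-(5 / 2) : ℝ)) ∧
    ∀ᵐ x ∂(volume.restrict Ω), -⟪L2.fn (Ω := Ω) (E := Mat) (G t) x,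
        outer (L2.fn (Ω := Ω) (E := R3) (u' t) x)⟫_ℝ
      ≤ (θ * ν * W x + K / (τ - t) + w x) * ‖L2.fn (Ω := Ω) (E := R3) (u' t) x‖ ^ 2 + g x := by
    intro t
    by_cases h : WeaklyCompressed b (θ * ν) (K / (τ - t)) (B t)
      (κ * ν ^ (5 / 2 : ℝ) * (τ - t) ^ (-(5 / 2) : ℝ)) (G t) (u' t)
    · obtain ⟨W, w, g, h3⟩ := h
      exact ⟨W, w, g, fun _ => h3⟩
    · exact ⟨0, 0, 0, fun h4 => absurd h4 h⟩
  choose W w g hWwg using hch
  refine h2 a b w g B t₁ hab ha ht₁ hB ?_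
  filter_upwards [hyp] with t ht
  obtain ⟨k1, k2, k3, k4, k5, k6⟩ := hWwg t ht
  refine ⟨k2, k3, k4, k5, W t, Pool.Agent.R462.HC.FB.of_pub k1, ?_⟩
  have k6' : ∀ᵐ x ∂((volume : Measure H772R2.NS.E3).restrict (show Set H772R2.NS.E3 from Ω)),
      -⟪(L2.fn (Ω := Ω) (E := Mat) (G t) x : H772R2.NS.M3),
        (outer (L2.fn (Ω := Ω) (E := R3) (u' t) x) : H772R2.NS.M3)⟫_ℝ
      ≤ (θ * ν * W t x + K / (τ - t) + w t x)
        * ‖(L2.fn (Ω := Ω) (E := R3) (u' t) x : H772R2.NS.E3)‖ ^ 2 + g t x := k6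
  filter_upwards [k6'] with x hx
  refine le_trans (le_of_eq ?_) hx
  exact congrArg (fun y : H772R2.NS.M3 =>
    -⟪((G t : H772R2.NS.E3 → H772R2.NS.M3) x), y⟫_ℝ)
    (Pool.Agent.R462.HC.outer_tens ((u' t : H772R2.NS.E3 → H772R2.NS.E3) x)).symm

end Pool.Agent.Results.MP_a38b17_an.EnergyLossNeedsCompression
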