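import Pool.Agent.N830.EL.Mid2
import Pool.Agent.W795.TQ.DPub
import Pool.Agent.W12.TQ.Iter
import Pool.Agent.W347.TQ.Ode
import Pool.Agent.W52.TQ.Univ
import Pool.Agent.W775.TQ.Dtp
import Pool.Agent.W503.TQ.Est1
import Pool.Agent.W790.TQ.Est2
import Pool.Agent.W52.TQ.Loc
import Pool.Agent.W503.TQ.Uni

/-!
# A loss of energy needs an obtuse angle between the Eulerian and the Lagrangian acceleration

Let `u` be a Leray-Hopf solution of the Navier-Stokes equations with viscosity `ν` in an arbitrary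
bounded open set `Ω ⊆ ℝ³`, with regular initial velocity and force. We show: the energy equality
holds on `[0,T]`, or there is a time `τ ∈ (0,T]` such that the energy equality holds on `[0,τ)` and
that before `τ` the Eulerian acceleration `∂ₜu` and the acceleration of the fluid particles
`∂ₜu + (u·∇)u`, up to a gradient field, form an obtuse angle somewhere.

Namely, for `0 ≤ K < 1`, it is impossible that for almost every `t` near `τ` there is a gradient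
field `∇φ` such that almost everywhere in `Ω`

`∂ₜu·(∂ₜu + (u·∇)u + ∇φ) ≥ - (K ν/(4 (τ - t)) + Λ(t)) |∇u|² - g`,

where `Λ ≥ 0` is integrable near `τ` and `‖g(t)‖_{L¹(Ω)} ≤ κ ν^{5/2} (τ - t)^{-3/2}`; `κ > 0` depends
on `K` only. So a solution for which the angle between `∂ₜu` and `∂ₜu + (u·∇)u` (or
`∂ₜu + (u·∇)u + ∇φ`, for instance `∂ₜu + curl u × u`) is at most `90°` satisfies the energy equality.

The criterion is a theorem of helper327 (`Pool/Agent/N327/LE`), first handed in for the global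
regularity problem and moved here, with the energy equality added.
-/

set_option autoImplicit false

open MeasureTheory Set
open scoped InnerProductSpace ENNReal ContDiff

namespace Pool.Agent.Results.MP_a38b17_an.EnergyLossObtuseAngle

open H772R2.NS.Pub Pool.Agent.W795.TQ

/-- The entry `(i, j)` of a matrix. -/
def entry (A : Mat) (i j : Fin 3) : ℝ := (show EuclideanSpace ℝ (Fin 3 × Fin 3) from A) (i, j)

/-- The product of a matrix and a vector. If `A = ∇u`, with the entries `∂_j u_i`, then `A u` is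
`(u·∇)u`. -/
noncomputable def mulVec (A : Mat) (a : R3) : R3 :=
  WithLp.toLp 2 fun i : Fin 3 => ∑ j : Fin 3, entry A i j * ⟪e j, a⟫_ℝ

/-- `P` is a gradient field in `Ω`: it is in `L^{6/5}(Ω)` and orthogonal to the divergence free test
fields. -/
def IsGradient (Ω : Set R3) (P : R3 → R3) : Prop :=
  MemLp P (6 / 5) (volume.restrict Ω) ∧ ∀ ψ, IsTest Ω ψ → ∫ x in Ω, ⟪P x, ψ x⟫_ℝ = 0

/-- The fields `u` and `v`, with `G = ∇u`, satisfy almost everywhere in `Ω`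
`v·(v + (u·∇)u + P) ≥ - (c |∇u|² + g)` for some gradient field `P` and some function `g` with
`‖g‖_{L¹(Ω)} ≤ Γ`. -/
def NearlyAcute {Ω : Set R3} (c Γ : ℝ) (u v : L2 Ω R3) (G : L2 Ω Mat) : Prop :=
  ∃ (P : R3 → R3) (g : R3 → ℝ), IsGradient Ω P ∧
    AEStronglyMeasurable g (volume.restrict Ω) ∧
    eLpNorm g 1 (volume.restrict Ω) ≤ ENNReal.ofReal Γ ∧
    ∀ᵐ x ∂(volume.restrict Ω), -(c * ‖G.fn x‖ ^ 2 + g x)
      ≤ ⟪v.fn x, v.fn x + mulVec (G.fn x) (u.fn x) + P x⟫_ℝ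

theorem mulVec_eq (A : H772R2.NS.M3) (a : H772R2.NS.E3) :
    (mulVec A a : H772R2.NS.E3) = Pool.Agent.N327.LE.mv A a := by
  have h : ∀ i : Fin 3, ∀ a : H772R2.NS.E3, ⟪(e i : H772R2.NS.E3), a⟫_ℝ = a i := fun i a => by
    rw [inner_e]
  show WithLp.toLp 2 (fun i : Fin 3 => ∑ j : Fin 3, entry A i j
    * ⟪(e j : H772R2.NS.E3), a⟫_ℝ) = _
  simp only [h]
  rfl

/-- Let `0 ≤ K < 1`. There is a number `κ > 0`, depending on `K` only, with the following property.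
Let `u` be a Leray-Hopf solution on `[0,T]` with admissible data in a bounded open set `Ω`: the force
is `⟨f(t), φ⟩ = (F(t), ∇φ)`, `F ∈ H¹(0,T; L²)`, the initial velocity is in `V` and the initial
acceleration in `L²`. Then the energy equality holds for all `t ∈ [0,T]`, or there are a time
`τ ∈ (0,T]` and functions `u' = ∂ₜu`, `G = ∇u`, `G' = ∇∂ₜu` on `(0,τ)` such that `u` is a strong
solution and satisfies the energy equality on `[0,t]` for all `t < τ`, and for all `t₁ < τ` and all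
integrable functions `Λ ≥ 0` on `(t₁,τ)` it is impossible that for almost every `t ∈ (t₁,τ)` the
accelerations are nearly acute in the sense of `NearlyAcute`, with the constants
`c = K ν/(4 (τ - t)) + Λ(t)` and `Γ = κ ν^{5/2} (τ - t)^{-3/2}`. -/
theorem result (K : ℝ) (hK : 0 ≤ K) (hK1 : K < 1) :
    ∃ κ : ℝ, 0 < κ ∧
    ∀ (Ω : Set R3), IsOpen Ω → Bornology.IsBounded Ω → ∀ (ν T : ℝ), 0 < ν → 0 < T →
    ∀ (F F' : ℝ → L2 Ω Mat), IsH1 T F F' →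
    ∀ (u : ℝ → L2 Ω R3) (G₀ : ℝ → L2 Ω Mat), IsLerayHopf Ω ν T F u G₀ →
    ∀ z0 : L2 Ω Mat, (u 0, z0) ∈ H1graph Ω →
    (∃ g : L2 Ω R3, ∀ φ, IsTest Ω φ → rhs ν (u 0) z0 (F 0) φ = ∫ x in Ω, ⟪g.fn x, φ x⟫_ℝ) →
    (∀ t ∈ Icc 0 T, ‖u t‖ ^ 2 / 2 + ν * (∫ s in (0 : ℝ)..t, ‖G₀ s‖ ^ 2)
      = ‖u 0‖ ^ 2 / 2 + ∫ s in (0 : ℝ)..t, ⟪F s, G₀ s⟫_ℝ) ∨
    ∃ τ ∈ Ioc 0 T, ∃ (u' : ℝ → L2 Ω R3) (G G' : ℝ → L2 Ω Mat),
      (∀ t ∈ Ioo 0 τ, IsStrong Ω ν t F u u' G G') ∧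
      (∀ t ∈ Ico 0 τ, ‖u t‖ ^ 2 / 2 + ν * (∫ s in (0 : ℝ)..t, ‖G₀ s‖ ^ 2)
        = ‖u 0‖ ^ 2 / 2 + ∫ s in (0 : ℝ)..t, ⟪F s, G₀ s⟫_ℝ) ∧
      ∀ (Λ : ℝ → ℝ) (t₁ : ℝ), (∀ t, 0 ≤ Λ t) → t₁ < τ → IntegrableOn Λ (Ioo t₁ τ) →
        ¬ ∀ᵐ t ∂(volume.restrict (Ioo t₁ τ)), NearlyAcute (K * ν / (4 * (τ - t)) + Λ t)
          (κ * ν ^ (5 / 2 : ℝ) * (τ - t) ^ (-(3 / 2) : ℝ)) (u t) (u' t) (G t) := by
  obtain ⟨κ, hκ, H⟩ := Pool.Agent.N830.EL.Obtuse.mid Pool.Agent.W12.TQ.proof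
    Pool.Agent.W347.TQ.proof_ode Pool.Agent.W775.TQ.proof_dtp Pool.Agent.W503.TQ.proof_est1
    Pool.Agent.W790.TQ.proof_est2 Pool.Agent.W52.TQ.proof_loc Pool.Agent.W503.TQ.proof_uni
    Pool.Agent.W52.TQ.proof_univ hK hK1
  refine ⟨κ, hκ, ?_⟩
  intro Ω hΩ hb ν T hν hT F F' hF u G₀ L z0 h0 hg
  obtain ⟨g, hg'⟩ := hg
  rcases H Ω hΩ hb ν T hν hT F F' hF.memLp hF.prim u G₀ L.meas
    (by
      filter_upwards [L.grad] with t ht
      exact mem_pub.mpr ht) L.gradL2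
    (fun φ hφ t ht => L.eqn φ ((isTest_iff φ).mpr hφ) t ht) L.energy z0 (mem_pub.mpr h0)
    ⟨g, fun φ hφ => hg' φ ((isTest_iff φ).mpr hφ)⟩ with h1 | ⟨τ, hτ, u', G, G', h1, h1e, h2⟩
  · exact Or.inl h1
  refine Or.inr ⟨τ, hτ, u', G, G', h1, h1e, ?_⟩
  intro Λ t₁ hΛ ht₁ hΛi hyp
  refine h2 Λ t₁ hΛ ht₁ hΛi ?_
  filter_upwards [hyp] with t ht
  obtain ⟨P, g, k1, k2, k3, k4⟩ := ht
  refine ⟨P, g, k1.1, fun ψ hψ => k1.2 ψ ((isTest_iff ψ).mpr hψ), k2, k3, ?_⟩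
  have aux : ∀ (c : ℝ) (A : Mat) (a b p : R3), c ≤ ⟪b, b + mulVec A a + p⟫_ℝ →
      c ≤ ⟪b, b + (show R3 from Pool.Agent.N327.LE.mv A a) + p⟫_ℝ := fun c A a b p h =>
    h.trans (le_of_eq (congrArg (fun y : R3 => ⟪b, b + y + p⟫_ℝ) (mulVec_eq A a)))
  have k4' : ∀ᵐ x ∂((volume : Measure H772R2.NS.E3).restrict (show Set H772R2.NS.E3 from Ω)),
      -((K * ν / (4 * (τ - t)) + Λ t) * ‖L2.fn (Ω := Ω) (E := Mat) (G t) x‖ ^ 2
        + g x) ≤ ⟪L2.fn (Ω := Ω) (E := R3) (u' t) x, L2.fn (Ω := Ω) (E := R3) (u' t) x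
          + mulVec (L2.fn (Ω := Ω) (E := Mat) (G t) x) (L2.fn (Ω := Ω) (E := R3) (u t) x)
            + P x⟫_ℝ := k4
  filter_upwards [k4'] with x hx
  exact aux _ _ _ _ _ hx

end Pool.Agent.Results.MP_a38b17_an.EnergyLossObtuseAngle
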