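import Mathlib
import Pool.Agent.N830.TN.Main

/-!
# The Tate conjecture for abelian varieties over number fields: reduction to finitely many classes of
degree four

Let `X` be an abelian variety over a number field `F₁ ⊆ ℂ` each of whose simple factors over the
complex numbers has dimension at most three, or complex multiplication (by any field, of any
dimension), or is of Albert type I or II with relative dimension odd or at most three (`RealOdd`), or
has an imaginary quadratic field as endomorphism algebra, with multiplicities at most three on the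
tangent space, and trivial discriminant if both are three (`QuadMult`) (`Good X`). We reduce the Tate
conjecture for all these `X`, for all prime numbers `ℓ` and in all degrees, to explicit Hodge classes
of degree four on products `A₀ × A₁ × A₂ × B` of four abelian varieties of CM type, where `B` is a
fixed abelian variety of CM type, for instance an elliptic curve.

Let `L` be a CM field, Galois over `ℚ` of degree `2 m`, which contains the field of `B`, and let
`j ≠ j'` be embeddings of `L` into `ℂ`, not complex conjugate to each other (`Frame`). Let `GoodIn L X`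
be the condition that the simple factors of `X` with complex multiplication have complex
multiplication by subfields of `L`, and that `L` contains the imaginary quadratic fields which act on
one of the other factors with different multiplicities on the tangent space.

First part: if the system `𝒜` (think of the classes of algebraic cycles on complex abelian varieties)
contains the classes `Tr (x₀ ∧ x₁ ∧ x₂ ∧ ι t)` of degree four on the products `A₀ × A₁ × A₂ × B` for
the data of the frame (`Frame.In`), then all `ℓ`-adic Tate classes, of all degrees, on all `X` with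
`GoodIn L X` are `ℚ_ℓ`-linear combinations of classes in `𝒜` (`TateIn`). Conversely, these classes of
degree four are Hodge classes, hence Tate classes (Deligne); if each of them is, for some prime number
`ℓ`, a `ℚ_ℓ`-linear combination of classes in `𝒜`, then they belong to `𝒜`. There are
`|B.Φ| (2 ^ (m - 2) - 1)` classes, so `2 ^ (m - 2) - 1` if `B` is an elliptic curve. Second part: the
same for all `X` with `Good X`, if each `L₀` is contained in some `L` whose classes are in `𝒜`.
-/

namespace Pool.Agent.Results.MP_938ce2_ag.FiniteListOfClasses

open Module Pool.Agent.Y90 Pool.Agent.R915 Pool.Agent.N830.HC Pool.Agent.N830.TN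
open Pool.Agent.H204R3.CM (IsHodge)
open Pool.Agent.W547.KB (CMPair)

/-- Reduction of the Tate conjecture to finitely many classes of degree four. -/
theorem result (B : CMPair) :
    (∀ F : Frame B,
      (∀ 𝒜 : Sys, F.In 𝒜 → ∀ X : AV, GoodIn F.L X → TateIn 𝒜 X) ∧
      (∀ 𝒜 : Sys, (∀ (d : F.Datum) (f : d.X.H [⋀^Fin 4]→ₗ[ℚ] ℚ), d.IsClass f →
        ∃ (ℓ : ℕ) (_ : Fact ℓ.Prime), IsComb 𝒜 d.X ℚ_[ℓ] fun v => ((f v : ℚ) : ℚ_[ℓ])) → F.In 𝒜) ∧
      (∀ d : F.Datum, ∃ f, IsHodge d.X.per f ∧ ∀ g, d.IsClass g ↔ g = f) ∧
      (F.j' ≠ F.j → ∀ m : ℕ, finrank ℚ F.L = 2 * m →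
        Nat.card F.Datum = Nat.card B.Φ * (2 ^ (m - 2) - 1))) ∧
    ∀ 𝒜 : Sys, (∀ F₀ : Frame B, ∃ F : Frame B, Nonempty (F₀.L →+* F.L) ∧ F.In 𝒜) →
      ∀ X : AV, Good X → TateIn 𝒜 X := by
  refine ⟨fun F => ⟨fun 𝒜 h X hX => tate_of 𝒜 X hX.good (hodge_good 𝒜 F h X hX),
    fun 𝒜 h => in_of_comb 𝒜 F h, fun d => ?_, fun hne m hm => F.card hne hm⟩,
    fun 𝒜 h X hX => tate_of 𝒜 X hX (hodge_all_good 𝒜 h X hX)⟩
  obtain ⟨f, h1, h2⟩ := exists_form B d.ι d.Φ d.quad
  exact ⟨f, h2, h1⟩

end Pool.Agent.Results.MP_938ce2_ag.FiniteListOfClasses
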