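import Pool.Agent.R405.Fin1

/-!
# Vojta's inequality in the projective plane at one place, for lines and conics

`D` is a normal crossings divisor on `ℙ²` over a number field `k` whose geometric components are
lines over a finite extension `K` of `k` (they may be conjugate over `k`) and conics over `k`. There
may be arbitrarily many components of both kinds. `S` consists of one arbitrary place `v`. Then the
inequality `m_{S,D} + h_{K_X} ≤ ε h + O(1)` holds off `D` and off finitely many rational lines, which
do not depend on `v` and `ε`: they pass through irrational crossing points of two components.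

(If all components are lines over `k` this is the case of one place of the subspace theorem.)
-/

set_option autoImplicit false

namespace Pool.Agent.Results.MP_17a322_nt.LinesAndConics

open NumberField MvPolynomial

/-- The places of a number field: the archimedean ones and the primes. -/
abbrev Place (k : Type) [Field k] [NumberField k] : Type :=
  InfinitePlace k ⊕ IsDedekindDomain.HeightOneSpectrum (𝓞 k)

/-- The absolute value of a place: the usual one for an archimedean place, and `(N p) ^ (-ord_p x)`
for a prime `p`. -/
noncomputable def Place.value {k : Type} [Field k] [NumberField k] (v : Place k) (x : k) : ℝ :=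
  match v with
  | Sum.inl w => w x
  | Sum.inr p => FinitePlace.mk p x

/-- The multiplicity: `1` for a real place, `2` for a complex place, `1` for a prime. -/
noncomputable def Place.mult {k : Type} [Field k] [NumberField k] (v : Place k) : ℝ :=
  match v with
  | Sum.inl w => w.mult
  | Sum.inr _ => 1

/-- The divisor `∏ F i = 0` has strict normal crossings: at each point of `ℙ²`, over each extension
field of `K`, the gradients of the equations of the components through the point are linearly
independent. -/
def IsNormalCrossings {K : Type} [Field K] {q : ℕ} (F : Fin q → MvPolynomial (Fin 3) K) : Prop :=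
  ∀ (L : Type) [Field L] [Algebra K L] (x : Fin 3 → L), x ≠ 0 →
    LinearIndependent L (fun (j : {j : Fin q // aeval x (F j) = 0}) (i : Fin 3) =>
      aeval x (pderiv i (F j)))

/-- The line `∑ m_j x_j = 0` over `k` passes through a crossing point `y` of two components
`F i = 0`, `F j = 0` (over an extension field of `K`) which is not rational over `k`. -/
def IsExceptionalLine {k K : Type} [Field k] [Field K] [Algebra k K] {q : ℕ}
    (F : Fin q → MvPolynomial (Fin 3) K) (m : Fin 3 → k) : Prop :=
  ∃ (L : Type) (_ : Field L) (_ : Algebra K L) (y : Fin 3 → L), y ≠ 0 ∧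
    (∃ i j, i ≠ j ∧ aeval y (F i) = 0 ∧ aeval y (F j) = 0) ∧
    (¬ ∃ (y0 : Fin 3 → k) (c : L), y = c • fun b => algebraMap K L (algebraMap k K (y0 b))) ∧
    ∑ b, algebraMap K L (algebraMap k K (m b)) * y b = 0

/-- The local height `[k : ℚ] d_v λ_{D,v}` of the curve `D : G = 0` of degree `d` at the point `x`. -/
noncomputable def localHeight {k : Type} [Field k] [NumberField k] (v : Place k) (d : ℕ)
    (G : MvPolynomial (Fin 3) k) (x : Fin 3 → k) : ℝ :=
  v.mult * Real.log ((⨆ j, v.value (x j)) ^ d / v.value (eval x G))

/-- **Vojta's inequality in the plane at one place for lines and conics.** Let `D = {G = 0}` be a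
normal crossings divisor of `ℙ²` over the number field `k` whose components `F i = 0` over the number
field `K ⊇ k` are lines over `K` or conics over `k`. There is a finite set `Z` of lines over `k`, each
of which passes through an irrational crossing point of two components, such that for each place `v`
of `k` and each `ε > 0` all rational points off `D` and `Z` satisfy `m_{v,D} + h_{K_X} ≤ ε h + C`.
(All heights are relative to `k`, not divided by `[k : ℚ]`; `h_{K_X} = -3 h`.) -/
theorem result (k K : Type) [Field k] [NumberField k] [Field K] [NumberField K] [Algebra k K]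
    {q : ℕ} (F : Fin q → MvPolynomial (Fin 3) K) (d : Fin q → ℕ)
    (hF : ∀ i, (F i).IsHomogeneous (d i)) (hnc : IsNormalCrossings F)
    (hd : ∀ i, d i = 1 ∨ (d i = 2 ∧ ∃ Q : MvPolynomial (Fin 3) k, F i = map (algebraMap k K) Q))
    (G : MvPolynomial (Fin 3) k) (hG : map (algebraMap k K) G = ∏ i, F i) :
    ∃ Z : Finset (Fin 3 → k), (∀ m ∈ Z, m ≠ 0 ∧ IsExceptionalLine F m) ∧
      ∀ (v : Place k) (ε : ℝ), 0 < ε → ∃ C : ℝ, ∀ x : Fin 3 → k, x ≠ 0 → eval x G ≠ 0 →
        (∀ m ∈ Z, ∑ j, m j * x j ≠ 0) →
        localHeight v (∑ i, d i) G x - 3 * Height.logHeight x ≤ ε * Height.logHeight x + C := by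
  obtain ⟨Z, hZ, hmain⟩ := R405.mainT F d hF hnc hd G hG
  refine ⟨Z, hZ, fun v ε hε => ?_⟩
  obtain ⟨C, hC⟩ := hmain v ε hε
  refine ⟨C, fun x hx hGx hxZ => ?_⟩
  have h1 := hC x hx hGx hxZ
  have h2 : localHeight v (∑ i, d i) G x = Pool.Agent.W180.OP.wt v *
      Pool.Agent.W180.OP.lam (Pool.Agent.W180.OP.av v) (∑ i, d i) G x := by
    rcases v with v | p
    · rfl
    · rfl
  rw [h2]
  linarith

end Pool.Agent.Results.MP_17a322_nt.LinesAndConics
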