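import Pool.Agent.N830.LegD

set_option autoImplicit false

open Polynomial

namespace Pool.Agent.Results.MP_87bea5_an.NoOddDegree

/-- For every real polynomial `Q` of odd degree, the sequence `Q(0), Q(1), Q(2), …` is not a
Legendre multiplier sequence. -/
theorem result (Q : ℝ[X]) (hQ : Odd Q.natDegree) :
    ¬ Pool.Agent.N830.Leg.IsLegendreMS (fun k : ℕ => Q.eval (k : ℝ)) :=
  Pool.Agent.N830.Leg.main hQ

end Pool.Agent.Results.MP_87bea5_an.NoOddDegree
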