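import Pool.Agent.N830.VQ.H

/-!
# Vojta's inequality for quadratic points of the projective line, with the discriminant of the order

`k` is a number field, `D` a sum of `q` distinct points `a_i` of `ℙ¹` over a finite extension `K`,
rational over `k`. A quadratic point `x` of `ℙ¹` over `k` is given by its binary quadratic form
`P = (P_0, P_1, P_2)` over `k`, `P(X, Y) = P_0 X² + P_1 X Y + P_2 Y²`, with `P(x) = 0`. Here
`h(x) = h(P) / 2 + O(1)`, the proximity `m_S(D, x)` is half the sum over `v ∈ S` of the local heights
`log (|P|_v ^ q / |∏ P(a_i)|_v)`, and half the sum over `v ∉ S` of the local heights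
`log (|P|_v ^ 2 / |disc P|_v)` is the logarithmic discriminant (prime to `S`) of the order of `x`.

* For every finite `S` and all `x` off finitely many curves of `Sym² ℙ¹ = ℙ²`, Vojta's inequality
  holds with **half** the logarithmic discriminant of the order of `x`.
* If `S` is one place, it holds for **all** quadratic `x`, with the logarithmic discriminant of the
  order of `x`.
-/

set_option autoImplicit false

namespace Pool.Agent.Results.MP_71c16a_nt.QuadraticOrderDiscriminant

open NumberField

/-- The places of a number field: the archimedean ones and the primes. -/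
abbrev Place (k : Type) [Field k] [NumberField k] : Type :=
  InfinitePlace k ⊕ IsDedekindDomain.HeightOneSpectrum (𝓞 k)

/-- The absolute value of a place: the usual one for an archimedean place, and `(N p) ^ (-ord_p x)`
for a prime `p`. -/
noncomputable def Place.value {k : Type} [Field k] [NumberField k] (v : Place k) (x : k) : ℝ :=
  match v with
  | Sum.inl w => w x
  | Sum.inr p => FinitePlace.mk p x

/-- The multiplicity: `1` for a real place, `2` for a complex place, `1` for a prime. -/
noncomputable def Place.mult {k : Type} [Field k] [NumberField k] (v : Place k) : ℝ :=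
  match v with
  | Sum.inl w => w.mult
  | Sum.inr _ => 1

/-- The value `P(a)` of a binary quadratic form. -/
def formValue {F : Type} [Field F] (P : Fin 3 → F) (a : Fin 2 → F) : F :=
  P 0 * a 0 ^ 2 + P 1 * a 0 * a 1 + P 2 * a 1 ^ 2

/-- The discriminant of a binary quadratic form. -/
def disc {F : Type} [Field F] (P : Fin 3 → F) : F := P 1 ^ 2 - 4 * P 0 * P 2

/-- `D = ∑ a_i` is a sum of `q` distinct points of `ℙ¹` over `K`, rational over `k`; the value of a
form `P` over `k` on `D` is `R P = ∏ P(a_i)`. -/
structure IsDivisor {k K : Type} [Field k] [Field K] [Algebra k K] {q : ℕ} (a : Fin q → Fin 2 → K)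
    (R : (Fin 3 → k) → k) : Prop where
  point : ∀ i, a i ≠ 0
  distinct : ∀ i j, i ≠ j → a i 0 * a j 1 ≠ a i 1 * a j 0
  value : ∀ P : Fin 3 → k,
    algebraMap k K (R P) = ∏ i, formValue (fun j => algebraMap k K (P j)) (a i)

section

variable {k : Type} [Field k] [NumberField k]

/-- The height `h(x)` (relative to `k`, not divided by `[k : ℚ]`) of the roots of the form `P`. -/
noncomputable def height (P : Fin 3 → k) : ℝ := Height.logHeight P / 2

/-- The proximity `m_S(D, x)`: here `r` is the value of the form `P` of `x` on `D` and `q` is the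
degree of `D`. -/
noncomputable def proximity (S : Finset (Place k)) (q : ℕ) (r : k) (P : Fin 3 → k) : ℝ :=
  (∑ v ∈ S, v.mult * Real.log ((⨆ j, v.value (P j)) ^ q / v.value r)) / 2

/-- The logarithmic discriminant outside `S` of the order of `x`. -/
noncomputable def logDisc (S : Finset (Place k)) (P : Fin 3 → k) : ℝ :=
  (∑ᶠ (v : Place k) (_ : v ∉ S),
    v.mult * Real.log ((⨆ j, v.value (P j)) ^ 2 / v.value (disc P))) / 2

end

/-- **Vojta's inequality for quadratic points of the line with the discriminant of the order.** Let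
`D = ∑ a_i` be a sum of `q` distinct points of `ℙ¹` (over a number field `K ⊇ k`), rational over `k`.

(1) For each `ε > 0` there is a nonzero polynomial `Φ` over `k` such that for every finite set `S` of
places there is `C` with `m_S(D, x) - 2 h(x) ≤ d_S(x) / 2 + ε h(x) + C` for all roots `x`, not in
`D`, of the quadratic forms `P` over `k` with `disc P ≠ 0` and `Φ(P) ≠ 0`.

(2) For each place `v` and `ε > 0` there is `C` with `m_v(D, x) - 2 h(x) ≤ d_v(x) + ε h(x) + C` for
all roots `x`, not in `D`, of the quadratic forms `P` over `k` with `disc P ≠ 0`.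

Here `h_{K_X}(x) = -2 h(x)` and `d_S(x)` is the logarithmic discriminant, outside `S`, of the order
of `x`. -/
theorem result (k K : Type) [Field k] [NumberField k] [Field K] [NumberField K] [Algebra k K]
    {q : ℕ} (a : Fin q → Fin 2 → K) (R : (Fin 3 → k) → k) (hD : IsDivisor a R) :
    (∀ ε : ℝ, 0 < ε → ∃ Φ : MvPolynomial (Fin 3) k, Φ ≠ 0 ∧ ∀ S : Finset (Place k), ∃ C : ℝ,
      ∀ P : Fin 3 → k, R P ≠ 0 → disc P ≠ 0 → MvPolynomial.eval P Φ ≠ 0 →
        proximity S q (R P) P - 2 * height P ≤ logDisc S P / 2 + ε * height P + C) ∧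
    (∀ (v : Place k) (ε : ℝ), 0 < ε → ∃ C : ℝ, ∀ P : Fin 3 → k, R P ≠ 0 → disc P ≠ 0 →
        proximity {v} q (R P) P - 2 * height P ≤ logDisc {v} P + ε * height P + C) := by
  classical
  obtain ⟨h1, h2⟩ := Pool.Agent.N830.VQ.both a hD.point hD.distinct R hD.value
  have hval : ∀ (v : Place k) (c : k), v.value c = Pool.Agent.W180.OP.av v c := by
    intro v c
    rcases v with v | v <;> rfl
  have hmul : ∀ v : Place k, v.mult = Pool.Agent.W180.OP.wt v := by
    intro v
    rcases v with v | v <;> rfl
  have hlog : ∀ (v : Place k) (P : Fin 3 → k), P ≠ 0 → ∀ (q : ℕ) (r : k), r ≠ 0 →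
      v.mult * Real.log ((⨆ j, v.value (P j)) ^ q / v.value r) =
      Pool.Agent.W180.OP.wt v * (q * Real.log (Pool.Agent.W180.OP.nrm (Pool.Agent.W180.OP.av v) P) -
        Real.log (Pool.Agent.W180.OP.av v r)) := by
    intro v P hP q r hr
    have e1 : (⨆ j, v.value (P j)) = Pool.Agent.W180.OP.nrm (Pool.Agent.W180.OP.av v) P := by
      unfold Pool.Agent.W180.OP.nrm
      simp only [hval]
    rw [hmul, e1, hval, Real.log_div
      (pow_pos (Pool.Agent.W180.OP.nrm_pos (Pool.Agent.W180.OP.av v) hP) _).ne'
      ((Pool.Agent.W180.OP.av v).pos_iff.2 hr).ne', Real.log_pow]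
  have hdisc : ∀ P : Fin 3 → k, MvPolynomial.eval P (Pool.Agent.N830.VQ.DD k) = disc P := fun P =>
    Pool.Agent.N830.VQ.eval_DD P
  have hD' : ∀ (S : Finset (Place k)) (P : Fin 3 → k), disc P ≠ 0 → logDisc S P =
      Height.logHeight P - (∑ v ∈ S, Pool.Agent.W180.OP.wt v *
        (2 * Real.log (Pool.Agent.W180.OP.nrm (Pool.Agent.W180.OP.av v) P) -
          Real.log (Pool.Agent.W180.OP.av v (disc P)))) / 2 := by
    intro S P hP
    have hP0 : P ≠ 0 := by
      rintro rfl
      apply hP
      simp [disc]
    unfold logDisc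
    have h3 := Pool.Agent.N830.VQ.disc_sum S P hP0 (disc P) hP
    have h4 : ∑ᶠ (v : Place k) (_ : v ∉ S),
        v.mult * Real.log ((⨆ j, v.value (P j)) ^ 2 / v.value (disc P)) =
        ∑ᶠ (v : Place k) (_ : v ∉ S), Pool.Agent.W180.OP.wt v *
        (2 * Real.log (Pool.Agent.W180.OP.nrm (Pool.Agent.W180.OP.av v) P) -
          Real.log (Pool.Agent.W180.OP.av v (disc P))) := by
      refine finsum_congr fun v => finsum_congr fun _ => ?_
      rw [hlog v P hP0 2 (disc P) hP]
      push_cast
      rfl
    rw [h4, h3]
    ring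
  constructor
  · intro ε hε
    obtain ⟨Φ, hΦ, hmain⟩ := h1 ε hε
    refine ⟨Φ, hΦ, fun S => ?_⟩
    obtain ⟨C, hC⟩ := hmain S
    refine ⟨C / 2, fun P hRP hP hΦP => ?_⟩
    have hP0 : P ≠ 0 := by
      rintro rfl
      apply hP
      simp [disc]
    have h3 := hC P hΦP hRP (by rw [hdisc]; exact hP)
    rw [hD' S P hP]
    unfold proximity height
    simp only [hlog _ P hP0 q (R P) hRP]
    simp only [hdisc] at h3
    have h4 : ∀ v : Place k, Pool.Agent.W180.OP.wt v *
        ((q * Real.log (Pool.Agent.W180.OP.nrm (Pool.Agent.W180.OP.av v) P) -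
          Real.log (Pool.Agent.W180.OP.av v (R P))) +
          (2 * Real.log (Pool.Agent.W180.OP.nrm (Pool.Agent.W180.OP.av v) P) -
            Real.log (Pool.Agent.W180.OP.av v (disc P))) / 2) =
        Pool.Agent.W180.OP.wt v *
        (q * Real.log (Pool.Agent.W180.OP.nrm (Pool.Agent.W180.OP.av v) P) -
          Real.log (Pool.Agent.W180.OP.av v (R P))) +
        (Pool.Agent.W180.OP.wt v *
          (2 * Real.log (Pool.Agent.W180.OP.nrm (Pool.Agent.W180.OP.av v) P) -
            Real.log (Pool.Agent.W180.OP.av v (disc P)))) / 2 := fun v => by ring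
    simp only [h4, Finset.sum_add_distrib, ← Finset.sum_div] at h3
    linarith
  · intro v ε hε
    obtain ⟨C, hC⟩ := h2 v ε hε
    refine ⟨C / 2, fun P hRP hP => ?_⟩
    have hP0 : P ≠ 0 := by
      rintro rfl
      apply hP
      simp [disc]
    have h3 := hC P hRP (by rw [hdisc]; exact hP)
    rw [hD' {v} P hP]
    unfold proximity height
    rw [Finset.sum_singleton, Finset.sum_singleton, hlog _ P hP0 q (R P) hRP]
    rw [hdisc, mul_add] at h3
    linarith

end Pool.Agent.Results.MP_71c16a_nt.QuadraticOrderDiscriminant
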